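import Mathlib

set_option autoImplicit false

/-!
# Linear spaces without O'Nan configurations: composition, and the hypergraph of the triples in the blocks
-/

open Finset

namespace Pool.Agent.H226R.NU

variable {P : Type} [Fintype P] [DecidableEq P]

/-- an O'Nan configuration: four distinct blocks which meet pairwise, in different points -/
def ONan (B : Finset (Finset P)) : Prop :=
  ∃ (b : Fin 4 → Finset P) (p : Fin 4 → Fin 4 → P), (∀ i, b i ∈ B) ∧ (∀ i j, i ≠ j → b i ≠ b j) ∧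
    (∀ i j, i ≠ j → p i j ∈ b i ∧ p i j ∈ b j) ∧ (∀ i j k, i ≠ j → i ≠ k → j ≠ k → p i j ≠ p i k)

/-- a linear space, all blocks of which have `s` points, without O'Nan configurations -/
structure LS (s : ℕ) (B : Finset (Finset P)) : Prop where
  card : ∀ b ∈ B, b.card = s
  ex : ∀ x y : P, x ≠ y → ∃ b ∈ B, x ∈ b ∧ y ∈ b
  uniq : ∀ x y : P, x ≠ y → ∀ b ∈ B, ∀ b' ∈ B, x ∈ b → y ∈ b → x ∈ b' → y ∈ b' → b = b'
  free : ¬ ONan B

/-! ### Composition -/

theorem compose {Q : Type} [Fintype Q] [DecidableEq Q] {s : ℕ} {L : Finset (Finset P)} {B : Finset (Finset Q)}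
    (hL : LS s L) (hs : Fintype.card Q = s) (hs0 : 0 < s) {k : ℕ} (hB : LS k B) :
    ∃ B' : Finset (Finset P), LS k B' := by
  classical
  have hQ : Nonempty Q := Fintype.card_pos_iff.1 (by omega)
  have h1 : ∀ l : Finset P, ∃ φ : P → Q, l ∈ L → (∀ x ∈ l, ∀ y ∈ l, φ x = φ y → x = y) ∧ ∀ z, ∃ x ∈ l, φ x = z := by
    intro l
    by_cases hl : l ∈ L
    · have hc : Fintype.card {x // x ∈ l} = Fintype.card Q := by
        rw [Fintype.card_coe, hL.card l hl, hs]
      have e := Fintype.equivOfCardEq hc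
      refine ⟨fun x => if h : x ∈ l then e ⟨x, h⟩ else Classical.arbitrary Q, fun _ => ⟨?_, ?_⟩⟩
      · intro x hx y hy hxy
        simp only [hx, hy, dif_pos] at hxy
        exact congrArg Subtype.val (e.injective hxy)
      · intro z
        refine ⟨(e.symm z).1, (e.symm z).2, ?_⟩
        simp
    · exact ⟨fun _ => Classical.arbitrary Q, fun h => absurd h hl⟩
  choose φ hφ using h1
  refine ⟨univ.filter (fun K => ∃ l ∈ L, ∃ b ∈ B, K = l.filter (fun x => φ l x ∈ b)), ?_, ?_, ?_, ?_⟩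
  · intro K hK
    obtain ⟨l, hl, b, hb, rfl⟩ := (mem_filter.1 hK).2
    rw [← hB.card b hb]
    refine card_bij (fun x _ => φ l x) ?_ ?_ ?_
    · intro x hx
      exact (mem_filter.1 hx).2
    · intro x hx y hy h
      exact (hφ l hl).1 x (mem_filter.1 hx).1 y (mem_filter.1 hy).1 h
    · intro z hz
      obtain ⟨x, hx, rfl⟩ := (hφ l hl).2 z
      exact ⟨x, mem_filter.2 ⟨hx, hz⟩, rfl⟩
  · intro x y hxy
    obtain ⟨l, hl, hxl, hyl⟩ := hL.ex x y hxy
    obtain ⟨b, hb, hxb, hyb⟩ := hB.ex (φ l x) (φ l y) (fun h => hxy ((hφ l hl).1 x hxl y hyl h))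
    exact ⟨l.filter (fun x => φ l x ∈ b), mem_filter.2 ⟨mem_univ _, l, hl, b, hb, rfl⟩,
      mem_filter.2 ⟨hxl, hxb⟩, mem_filter.2 ⟨hyl, hyb⟩⟩
  · intro x y hxy K hK K' hK' h1 h2 h3 h4
    obtain ⟨l, hl, b, hb, rfl⟩ := (mem_filter.1 hK).2
    obtain ⟨l', hl', b', hb', rfl⟩ := (mem_filter.1 hK').2
    rw [mem_filter] at h1 h2 h3 h4
    have e1 : l = l' := hL.uniq x y hxy l hl l' hl' h1.1 h2.1 h3.1 h4.1
    subst e1
    have e2 : b = b' := hB.uniq (φ l x) (φ l y) (fun h => hxy ((hφ l hl).1 x h1.1 y h2.1 h)) b hb b' hb'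
      h1.2 h2.2 h3.2 h4.2
    rw [e2]
  · rintro ⟨K, p, hK, hne, hp, hd⟩
    have hK' : ∀ i, ∃ l ∈ L, ∃ b ∈ B, K i = l.filter (fun x => φ l x ∈ b) := fun i => (mem_filter.1 (hK i)).2
    choose l hl b hb hKe using hK'
    have hpl : ∀ i j, i ≠ j → p i j ∈ l i ∧ p i j ∈ l j := by
      intro i j hij
      have h2 := hp i j hij
      rw [hKe i, hKe j, mem_filter, mem_filter] at h2
      exact ⟨h2.1.1, h2.2.1⟩
    by_cases hall : ∀ i j, i ≠ j → l i ≠ l j
    · exact hL.free ⟨l, p, hl, hall, hpl, hd⟩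
    · push Not at hall
      obtain ⟨i, j, hij, hlij⟩ := hall
      have heq : ∀ k, l k = l i := by
        intro k
        by_cases hki : k = i
        · rw [hki]
        by_cases hkj : k = j
        · rw [hkj, hlij]
        refine hL.uniq (p k i) (p k j) (hd k i j hki hkj hij) _ (hl k) _ (hl i) (hpl k i hki).1 (hpl k j hkj).1
          (hpl k i hki).2 ?_
        rw [hlij]
        exact (hpl k j hkj).2
      refine hB.free ⟨b, fun a c => φ (l i) (p a c), hb, ?_, ?_, ?_⟩
      · intro a c hac h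
        apply hne a c hac
        rw [hKe a, hKe c, heq a, heq c, h]
      · intro a c hac
        have h2 := hp a c hac
        rw [hKe a, hKe c, mem_filter, mem_filter, heq a, heq c] at h2
        exact ⟨h2.1.2, h2.2.2⟩
      · intro a c d hac had hcd h
        apply hd a c d hac had hcd
        refine (hφ (l i) (hl i)).1 _ ?_ _ ?_ h
        · have := (hpl a c hac).1
          rwa [heq a] at this
        · have := (hpl a d had).1
          rwa [heq a] at this

/-! ### The triples in the blocks -/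

/-- the triples which are contained in a block -/
def triples (B : Finset (Finset P)) : Finset (Finset P) := univ.filter (fun e => e.card = 3 ∧ ∃ b ∈ B, e ⊆ b)

theorem mem_triples {B : Finset (Finset P)} {e : Finset P} : e ∈ triples B ↔ e.card = 3 ∧ ∃ b ∈ B, e ⊆ b := by
  rw [triples, mem_filter]
  exact ⟨fun h => h.2, fun h => ⟨mem_univ _, h⟩⟩

theorem card_triples {B : Finset (Finset P)} (hB : LS 5 B) :
    (triples B).card = (Fintype.card P).choose 2 := by
  have h := card_mul_eq_card_mul (s := triples B) (t := powersetCard 2 (univ : Finset P))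
    (fun e p => p ⊆ e) (m := 3) (n := 3) ?_ ?_
  · rw [card_powersetCard, card_univ] at h
    omega
  · intro e he
    have h1 := (mem_triples.1 he).1
    have h2 : bipartiteAbove (fun e p => p ⊆ e) (powersetCard 2 (univ : Finset P)) e = powersetCard 2 e := by
      ext p
      rw [mem_bipartiteAbove, mem_powersetCard, mem_powersetCard]
      exact ⟨fun h => ⟨h.2, h.1.2⟩, fun h => ⟨⟨subset_univ _, h.2⟩, h.1⟩⟩
    rw [h2, card_powersetCard, h1]
    rfl
  · intro p hp
    obtain ⟨x, y, hxy, rfl⟩ := card_eq_two.1 (mem_powersetCard.1 hp).2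
    obtain ⟨b, hb, hx, hy⟩ := hB.ex x y hxy
    have h5 := hB.card b hb
    have h3 : ((b.erase x).erase y).card = 3 := by
      rw [card_erase_of_mem (mem_erase.2 ⟨hxy.symm, hy⟩), card_erase_of_mem hx, h5]
    rw [← h3]
    symm
    refine card_bij (fun z _ => {x, y, z}) ?_ ?_ ?_
    · intro z hz
      rw [mem_erase, mem_erase] at hz
      rw [mem_bipartiteBelow, mem_triples]
      refine ⟨⟨card_eq_three.2 ⟨x, y, z, hxy, hz.2.1.symm, hz.1.symm, rfl⟩, b, hb, ?_⟩, ?_⟩
      · intro w hw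
        simp only [mem_insert, mem_singleton] at hw
        rcases hw with rfl | rfl | rfl
        · exact hx
        · exact hy
        · exact hz.2.2
      · intro w hw
        simp only [mem_insert, mem_singleton] at hw ⊢
        tauto
    · intro z hz w hw h
      rw [mem_erase, mem_erase] at hz hw
      have h6 : z ∈ ({x, y, w} : Finset P) := by rw [← h]; simp
      simp only [mem_insert, mem_singleton] at h6
      rcases h6 with h6 | h6 | h6
      · exact absurd h6 hz.2.1
      · exact absurd h6 hz.1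
      · exact h6
    · intro e he
      rw [mem_bipartiteBelow, mem_triples] at he
      obtain ⟨⟨h6, b', hb', heb⟩, h7⟩ := he
      have hxe : x ∈ e := h7 (by simp)
      have hye : y ∈ e := h7 (by simp)
      have e1 : b' = b := hB.uniq x y hxy b' hb' b hb (heb hxe) (heb hye) hx hy
      subst e1
      have h8 : (e \ {x, y}).card = 1 := by
        rw [card_sdiff_of_subset h7, h6, card_pair hxy]
      obtain ⟨z, hz⟩ := card_eq_one.1 h8
      have hz1 : z ∈ e \ {x, y} := by rw [hz]; simp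
      rw [mem_sdiff, mem_insert, mem_singleton, not_or] at hz1
      refine ⟨z, mem_erase.2 ⟨hz1.2.2, mem_erase.2 ⟨hz1.2.1, heb hz1.1⟩⟩, ?_⟩
      have h9 : e = {x, y} ∪ {z} := by rw [← hz, union_sdiff_of_subset h7]
      rw [h9]
      ext w
      simp only [mem_insert, mem_singleton, mem_union]
      tauto

/-- the set of vertices of a family of sets -/
def verts (F : Finset (Finset P)) : Finset P := F.sup id

theorem mem_verts {F : Finset (Finset P)} {v : P} : v ∈ verts F ↔ ∃ e ∈ F, v ∈ e := by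
  rw [verts, mem_sup]
  rfl

theorem no_two_regular {B : Finset (Finset P)} (hB : LS 5 B) (F : Finset (Finset P)) (hF : F ⊆ triples B)
    (hdeg : ∀ v ∈ verts F, (F.filter (fun e => v ∈ e)).card = 2) (hV : (verts F).card = 6) : False := by
  classical
  have hcard : ∀ e ∈ F, e.card = 3 := fun e he => (mem_triples.1 (hF he)).1
  have hsub : ∀ e ∈ F, e ⊆ verts F := fun e he v hv => mem_verts.2 ⟨e, he, hv⟩
  have hF4 : F.card = 4 := by
    have h := card_mul_eq_card_mul (s := F) (t := verts F) (fun e v => v ∈ e) (m := 3) (n := 2) ?_ ?_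
    · rw [hV] at h
      omega
    · intro e he
      have h2 : bipartiteAbove (fun (e : Finset P) v => v ∈ e) (verts F) e = e := by
        ext v
        rw [mem_bipartiteAbove]
        exact ⟨fun h => h.2, fun h => ⟨hsub e he h, h⟩⟩
      rw [h2, hcard e he]
    · intro v hv
      exact hdeg v hv
  have hblk : ∀ e ∈ F, ∃ b ∈ B, e ⊆ b := fun e he => (mem_triples.1 (hF he)).2
  -- four members
  have hfour : ∀ e ∈ F, ∀ f ∈ F, e ≠ f → ∃ g h, g ≠ h ∧ g ∈ F ∧ h ∈ F ∧ g ≠ e ∧ g ≠ f ∧ h ≠ e ∧ h ≠ f ∧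
      ∀ x ∈ F, x = e ∨ x = f ∨ x = g ∨ x = h := by
    intro e he f hf hef
    have h1 : ((F.erase e).erase f).card = 2 := by
      rw [card_erase_of_mem (mem_erase.2 ⟨hef.symm, hf⟩), card_erase_of_mem he, hF4]
    obtain ⟨g, h, hgh, heq⟩ := card_eq_two.1 h1
    have hg : g ∈ (F.erase e).erase f := by rw [heq]; simp
    have hh : h ∈ (F.erase e).erase f := by rw [heq]; simp
    simp only [mem_erase] at hg hh
    refine ⟨g, h, hgh, hg.2.2, hh.2.2, hg.2.1, hg.1, hh.2.1, hh.1, fun x hx => ?_⟩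
    by_cases h2 : x = e
    · exact Or.inl h2
    by_cases h3 : x = f
    · exact Or.inr (Or.inl h3)
    have h4 : x ∈ (F.erase e).erase f := mem_erase.2 ⟨h3, mem_erase.2 ⟨h2, hx⟩⟩
    rw [heq, mem_insert, mem_singleton] at h4
    exact Or.inr (Or.inr h4)
  -- a vertex is in at least two members, and not in three
  have htwo : ∀ v ∈ verts F, ∀ g ∈ F, v ∉ g → ∀ e ∈ F, v ∉ e → e ≠ g → ∀ h ∈ F, h ≠ e → h ≠ g → v ∈ h := by
    intro v hv g hg hvg e he hve heg h hh hhe hhg
    by_contra hvh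
    have h1 : F.filter (fun e => v ∈ e) ⊆ ((F.erase g).erase e).erase h := by
      intro x hx
      rw [mem_filter] at hx
      refine mem_erase.2 ⟨?_, mem_erase.2 ⟨?_, mem_erase.2 ⟨?_, hx.1⟩⟩⟩
      · rintro rfl; exact hvh hx.2
      · rintro rfl; exact hve hx.2
      · rintro rfl; exact hvg hx.2
    have h2 := card_le_card h1
    rw [hdeg v hv, card_erase_of_mem (mem_erase.2 ⟨hhe, mem_erase.2 ⟨hhg, hh⟩⟩),
      card_erase_of_mem (mem_erase.2 ⟨heg, he⟩), card_erase_of_mem hg, hF4] at h2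
    omega
  have hthree : ∀ v, ∀ e ∈ F, ∀ f ∈ F, ∀ g ∈ F, e ≠ f → e ≠ g → f ≠ g → v ∈ e → v ∈ f → v ∈ g → False := by
    intro v e he f hf g hg hef heg hfg h1 h2 h3
    have h4 : ({e, f, g} : Finset (Finset P)) ⊆ F.filter (fun e => v ∈ e) := by
      intro x hx
      simp only [mem_insert, mem_singleton] at hx
      rcases hx with rfl | rfl | rfl
      · exact mem_filter.2 ⟨he, h1⟩
      · exact mem_filter.2 ⟨hf, h2⟩
      · exact mem_filter.2 ⟨hg, h3⟩
    have h5 := card_le_card h4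
    rw [hdeg v (mem_verts.2 ⟨e, he, h1⟩), card_eq_three.2 ⟨e, f, g, hef, heg, hfg, rfl⟩] at h5
    omega
  -- different members are in different blocks
  have hdiff : ∀ e ∈ F, ∀ f ∈ F, e ≠ f → ∀ K ∈ B, e ⊆ K → f ⊆ K → False := by
    intro e he f hf hef K hK heK hfK
    obtain ⟨g, h, hgh, hg, hh, hge, hgf, hhe, hhf, hall⟩ := hfour e he f hf hef
    have hUK : e ∪ f ⊆ K := union_subset heK hfK
    have hU5 : (e ∪ f).card ≤ 5 := (card_le_card hUK).trans (hB.card K hK).le
    have hUc : (e ∪ f).card + (e ∩ f).card = 6 := by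
      rw [card_union_add_card_inter, hcard e he, hcard f hf]
    have hlt : (e ∩ f).card < 3 := by
      by_contra hcon
      have h1 : e ∩ f = e := eq_of_subset_of_card_le inter_subset_left (by rw [hcard e he]; omega)
      have h2 : e ∩ f = f := eq_of_subset_of_card_le inter_subset_right (by rw [hcard f hf]; omega)
      exact hef (h1.symm.trans h2)
    have hUV : e ∪ f ⊆ verts F := union_subset (hsub e he) (hsub f hf)
    have hWc : (verts F \ (e ∪ f)).card = (e ∩ f).card := by
      rw [card_sdiff_of_subset hUV, hV]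
      omega
    have hW : ∀ v ∈ verts F \ (e ∪ f), v ∈ g ∧ v ∈ h := by
      intro v hv
      rw [mem_sdiff, mem_union, not_or] at hv
      exact ⟨htwo v hv.1 e he hv.2.1 f hf hv.2.2 hef.symm g hg hgf hge,
        htwo v hv.1 e he hv.2.1 f hf hv.2.2 hef.symm h hh hhf hhe⟩
    -- not all vertices are in `K`
    have hnot : ¬ verts F ⊆ K := by
      intro hc
      have := card_le_card hc
      rw [hV, hB.card K hK] at this
      omega
    -- if `g` has two points in `K`, it is contained in `K`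
    have hgK : ∀ x ∈ F, 2 ≤ (x ∩ (e ∪ f)).card → x ⊆ K := by
      intro x hx hc
      obtain ⟨u, hu, w, hw, huw⟩ := one_lt_card.1 (by omega : 1 < (x ∩ (e ∪ f)).card)
      rw [mem_inter] at hu hw
      obtain ⟨b, hb, hxb⟩ := hblk x hx
      have := hB.uniq u w huw b hb K hK (hxb hu.1) (hxb hw.1) (hUK hu.2) (hUK hw.2)
      rw [← this]
      exact hxb
    have hsplit : ∀ x ∈ F, x \ (e ∪ f) ⊆ verts F \ (e ∪ f) := fun x hx => sdiff_subset_sdiff (hsub x hx) le_rfl
    have hsum : ∀ x ∈ F, (x ∩ (e ∪ f)).card + (x \ (e ∪ f)).card = 3 := by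
      intro x hx
      rw [card_inter_add_card_sdiff, hcard x hx]
    rcases (by omega : (e ∩ f).card = 1 ∨ (e ∩ f).card = 2) with ht | ht
    · apply hnot
      have hgK1 : g ⊆ K := hgK g hg (by
        have h1 := hsum g hg
        have h2 := card_le_card (hsplit g hg)
        omega)
      intro v hv
      by_cases h1 : v ∈ e ∪ f
      · exact hUK h1
      · exact hgK1 (hW v (mem_sdiff.2 ⟨hv, h1⟩)).1
    · rw [ht] at hWc
      have hge1 : verts F \ (e ∪ f) ⊆ g \ (e ∪ f) := fun v hv => mem_sdiff.2 ⟨(hW v hv).1, (mem_sdiff.1 hv).2⟩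
      have hhe1 : verts F \ (e ∪ f) ⊆ h \ (e ∪ f) := fun v hv => mem_sdiff.2 ⟨(hW v hv).2, (mem_sdiff.1 hv).2⟩
      have hg2 : g \ (e ∪ f) = verts F \ (e ∪ f) := Subset.antisymm (hsplit g hg) hge1
      have hh2 : h \ (e ∪ f) = verts F \ (e ∪ f) := Subset.antisymm (hsplit h hh) hhe1
      have hg1 := hsum g hg
      have hh1 := hsum h hh
      rw [hg2, hWc] at hg1
      rw [hh2, hWc] at hh1
      obtain ⟨x, hx⟩ := card_eq_one.1 (by omega : (g ∩ (e ∪ f)).card = 1)
      obtain ⟨y, hy⟩ := card_eq_one.1 (by omega : (h ∩ (e ∪ f)).card = 1)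
      have hxm : x ∈ g ∩ (e ∪ f) := by rw [hx]; simp
      have hym : y ∈ h ∩ (e ∪ f) := by rw [hy]; simp
      rw [mem_inter] at hxm hym
      have hxy : x ≠ y := by
        rintro rfl
        apply hgh
        rw [← sdiff_union_inter g (e ∪ f), ← sdiff_union_inter h (e ∪ f), hx, hy, hg2, hh2]
      obtain ⟨u, w, huw, hWe⟩ := card_eq_two.1 hWc
      have hu := hW u (by rw [hWe]; simp)
      have hw := hW w (by rw [hWe]; simp)
      obtain ⟨b, hb, hgb⟩ := hblk g hg
      obtain ⟨b', hb', hhb⟩ := hblk h hh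
      have e1 : b' = b := hB.uniq u w huw b' hb' b hb (hhb hu.2) (hhb hw.2) (hgb hu.1) (hgb hw.1)
      subst e1
      have e2 : b' = K := hB.uniq x y hxy b' hb' K hK (hgb hxm.1) (hhb hym.1) (hUK hxm.2) (hUK hym.2)
      subst e2
      apply hnot
      intro v hv
      by_cases h1 : v ∈ e ∪ f
      · exact hUK h1
      · exact hgb (hW v (mem_sdiff.2 ⟨hv, h1⟩)).1
  -- any two members meet
  have hle1 : ∀ e ∈ F, ∀ f ∈ F, e ≠ f → (e ∩ f).card ≤ 1 := by
    intro e he f hf hef
    by_contra hcon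
    obtain ⟨u, hu, w, hw, huw⟩ := one_lt_card.1 (not_le.1 hcon)
    rw [mem_inter] at hu hw
    obtain ⟨b, hb, heb⟩ := hblk e he
    obtain ⟨b', hb', hfb⟩ := hblk f hf
    have e1 : b' = b := hB.uniq u w huw b' hb' b hb (hfb hu.2) (hfb hw.2) (heb hu.1) (heb hw.1)
    subst e1
    exact hdiff e he f hf hef b' hb' heb hfb
  have hmeet : ∀ e ∈ F, ∀ f ∈ F, e ≠ f → (e ∩ f).Nonempty := by
    intro e he f hf hef
    obtain ⟨g, h, hgh, hg, hh, hge, hgf, hhe, hhf, hall⟩ := hfour e he f hf hef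
    by_contra hcon
    rw [not_nonempty_iff_eq_empty] at hcon
    have h1 : e ⊆ (e ∩ g) ∪ (e ∩ h) := by
      intro v hv
      have hvf : v ∉ f := fun h => by
        have : v ∈ e ∩ f := mem_inter.2 ⟨hv, h⟩
        rw [hcon] at this
        simp at this
      by_cases hvg : v ∈ g
      · exact mem_union_left _ (mem_inter.2 ⟨hv, hvg⟩)
      · exact mem_union_right _ (mem_inter.2 ⟨hv,
          htwo v (mem_verts.2 ⟨e, he, hv⟩) f hf hvf g hg hvg hgf h hh hgh.symm hhf⟩)
    have h2 := card_le_card h1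
    have h3 := card_union_le (e ∩ g) (e ∩ h)
    have h4 := hle1 e he g hg hge.symm
    have h5 := hle1 e he h hh hhe.symm
    rw [hcard e he] at h2
    omega
  -- the configuration
  have e4 := F.equivFinOfCardEq hF4
  have hne : ∀ i j : Fin 4, i ≠ j → (e4.symm i).1 ≠ (e4.symm j).1 := fun i j hij h =>
    hij (e4.symm.injective (Subtype.ext h))
  have hP0 : ∃ x : P, True := by
    have : (verts F).Nonempty := by rw [← card_pos, hV]; norm_num
    obtain ⟨x, -⟩ := this
    exact ⟨x, trivial⟩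
  obtain ⟨x0, -⟩ := hP0
  have hp : ∀ i j : Fin 4, ∃ x : P, i ≠ j → x ∈ (e4.symm i).1 ∧ x ∈ (e4.symm j).1 := by
    intro i j
    by_cases hij : i = j
    · exact ⟨x0, fun h => absurd hij h⟩
    · obtain ⟨x, hx⟩ := hmeet _ (e4.symm i).2 _ (e4.symm j).2 (hne i j hij)
      exact ⟨x, fun _ => mem_inter.1 hx⟩
  choose p hp using hp
  have hb : ∀ i : Fin 4, ∃ b ∈ B, (e4.symm i).1 ⊆ b := fun i => hblk _ (e4.symm i).2
  choose b hb1 hb2 using hb
  refine hB.free ⟨b, p, hb1, ?_, ?_, ?_⟩
  · intro i j hij h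
    refine hdiff _ (e4.symm i).2 _ (e4.symm j).2 (hne i j hij) (b i) (hb1 i) (hb2 i) ?_
    rw [h]
    exact hb2 j
  · intro i j hij
    exact ⟨hb2 i (hp i j hij).1, hb2 j (hp i j hij).2⟩
  · intro i j k hij hik hjk h
    refine hthree (p i j) _ (e4.symm i).2 _ (e4.symm j).2 _ (e4.symm k).2 (hne i j hij) (hne i k hik) (hne j k hjk)
      (hp i j hij).1 (hp i j hij).2 ?_
    rw [h]
    exact (hp i k hik).2

/-- the design with one block -/
theorem base : LS 5 ({univ} : Finset (Finset (Fin 5))) := by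
  refine ⟨?_, ?_, ?_, ?_⟩
  · intro b hb
    rw [mem_singleton.1 hb]
    rfl
  · intro x y _
    exact ⟨univ, mem_singleton_self _, mem_univ _, mem_univ _⟩
  · intro x y _ b hb b' hb' _ _ _ _
    rw [mem_singleton.1 hb, mem_singleton.1 hb']
  · rintro ⟨b, p, hb, hne, -, -⟩
    exact hne 0 1 (by decide) ((mem_singleton.1 (hb 0)).trans (mem_singleton.1 (hb 1)).symm)

end Pool.Agent.H226R.NU
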