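import Pool.Agent.H226R.NU.Basic

set_option autoImplicit false

/-!
# The Hermitian unital of even order has no O'Nan configuration
-/

open Finset

namespace Pool.Agent.H226R.NU

variable {K : Type} [Field K]

/-- the Hermitian form -/
def hf (σ : K →+* K) (u v : K × K × K) : K := u.1 * σ v.2.2 + u.2.2 * σ v.1 + u.2.1 * σ v.2.1

theorem hf_symm (σ : K →+* K) (hσ : ∀ x, σ (σ x) = x) (u v : K × K × K) : σ (hf σ u v) = hf σ v u := by
  simp only [hf, map_add, map_mul, hσ]
  ring

theorem hf_left (σ : K →+* K) (a b : K) (u v w : K × K × K) :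
    hf σ (a • u + b • v) w = a * hf σ u w + b * hf σ v w := by
  simp only [hf, Prod.fst_add, Prod.snd_add, Prod.smul_fst, Prod.smul_snd, smul_eq_mul]
  ring

theorem hf_right (σ : K →+* K) (a b : K) (u v w : K × K × K) :
    hf σ w (a • u + b • v) = σ a * hf σ w u + σ b * hf σ w v := by
  simp only [hf, Prod.fst_add, Prod.snd_add, Prod.smul_fst, Prod.smul_snd, smul_eq_mul, map_add, map_mul]
  ring

theorem hf_smul (σ : K →+* K) (a : K) (u w : K × K × K) : hf σ (a • u) w = a * hf σ u w := by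
  simp only [hf, Prod.smul_fst, Prod.smul_snd, smul_eq_mul]
  ring

/-- the points of the unital -/
abbrev Pt (σ : K →+* K) : Type := Option {p : K × K // p.2 + σ p.2 = p.1 * σ p.1}

/-- the vector of a point -/
def vec (σ : K →+* K) : Pt σ → K × K × K
  | none => (0, 0, 1)
  | some p => (1, p.1.1, p.1.2)

variable [CharP K 2]

theorem two0 : (2 : K) = 0 := CharTwo.two_eq_zero

theorem hf_self (σ : K →+* K) (P : Pt σ) : hf σ (vec σ P) (vec σ P) = 0 := by
  rcases P with _ | ⟨⟨x, y⟩, hp⟩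
  · simp [hf, vec]
  · simp only [hf, vec, one_mul, map_one, mul_one] at hp ⊢
    linear_combination hp + (x * σ x) * (two0 : (2 : K) = 0)

theorem hf_ne (σ : K →+* K) (hσ : ∀ x, σ (σ x) = x) {P Q : Pt σ} (h : P ≠ Q) :
    hf σ (vec σ P) (vec σ Q) ≠ 0 := by
  have h2 : (2 : K) = 0 := two0
  rcases P with _ | ⟨⟨x, y⟩, hp⟩ <;> rcases Q with _ | ⟨⟨x', y'⟩, hq⟩
  · exact absurd rfl h
  · simp [hf, vec]
  · simp [hf, vec]
  · intro h0
    simp only [hf, vec, one_mul, map_one, mul_one] at h0 hp hq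
    have h0' : σ (σ y' + y + x * σ x') = 0 := by rw [h0, map_zero]
    simp only [map_add, map_mul, hσ] at h0'
    have h1 : (x + x') * σ (x + x') = 0 := by
      rw [map_add]
      linear_combination h0 + h0' - hp - hq
    have hx : x + x' = 0 := by
      rcases mul_eq_zero.1 h1 with h | h
      · exact h
      · exact (map_eq_zero σ).1 h
    have hxx : x = x' := by linear_combination hx - x' * h2
    subst hxx
    have hy : y + y' = 0 := by linear_combination h0 + hq - (σ y') * h2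
    have hyy : y = y' := by linear_combination hy - y' * h2
    subst hyy
    exact h rfl

theorem exists_pt (σ : K →+* K) {v : K × K × K} (hv : hf σ v v = 0) (h0 : v ≠ 0) :
    ∃ (P : Pt σ) (c : K), c ≠ 0 ∧ v = c • vec σ P := by
  obtain ⟨a, x, y⟩ := v
  simp only [hf] at hv
  by_cases ha : a = 0
  · subst ha
    have hx : x = 0 := by
      have : x * σ x = 0 := by simpa using hv
      rcases mul_eq_zero.1 this with h | h
      · exact h
      · exact (map_eq_zero σ).1 h
    subst hx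
    refine ⟨none, y, ?_, ?_⟩
    · rintro rfl
      exact h0 rfl
    · simp [vec]
  · have hs : σ a ≠ 0 := by rwa [Ne, map_eq_zero]
    refine ⟨some ⟨(x / a, y / a), ?_⟩, a, ha, ?_⟩
    · simp only [map_div₀]
      field_simp
      linear_combination hv - (x * σ x) * (two0 : (2 : K) = 0)
    · simp only [vec, Prod.smul_mk, smul_eq_mul, mul_one]
      rw [mul_div_cancel₀ _ ha, mul_div_cancel₀ _ ha]

theorem vec_ne (σ : K →+* K) (P : Pt σ) : vec σ P ≠ 0 := by
  rcases P with _ | ⟨⟨x, y⟩, hp⟩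
  · intro h
    have := congrArg (fun v : K × K × K => v.2.2) h
    simp [vec] at this
  · intro h
    have := congrArg (fun v : K × K × K => v.1) h
    simp [vec] at this

theorem vec_smul (σ : K →+* K) (hσ : ∀ x, σ (σ x) = x) {P Q : Pt σ} {c : K} (h : vec σ P = c • vec σ Q) : P = Q := by
  by_contra hne
  apply hf_ne σ hσ hne
  rw [h, hf_smul, hf_self, mul_zero]

theorem ind2 (σ : K →+* K) (hσ : ∀ x, σ (σ x) = x) {P Q : Pt σ} (h : P ≠ Q) {a b : K}
    (h0 : a • vec σ P + b • vec σ Q = 0) : a = 0 ∧ b = 0 := by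
  have hz : ∀ w : K × K × K, hf σ 0 w = 0 := fun w => by simp [hf]
  have h1 : a * hf σ (vec σ P) (vec σ Q) = 0 := by
    have := hf_left σ a b (vec σ P) (vec σ Q) (vec σ Q)
    rw [h0, hz, hf_self, mul_zero, add_zero] at this
    exact this.symm
  have h2 : b * hf σ (vec σ Q) (vec σ P) = 0 := by
    have := hf_left σ a b (vec σ P) (vec σ Q) (vec σ P)
    rw [h0, hz, hf_self, mul_zero, zero_add] at this
    exact this.symm
  exact ⟨(mul_eq_zero.1 h1).resolve_right (hf_ne σ hσ h), (mul_eq_zero.1 h2).resolve_right (hf_ne σ hσ h.symm)⟩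

/-! ### Counting -/

variable [Fintype K] [DecidableEq K]

theorem fiber_card (σ : K →+* K) (hσ : ∀ x, σ (σ x) = x) {q : ℕ} (hq : Fintype.card K = q ^ 2)
    (hfix : (univ.filter (fun x : K => σ x = x)).card ≤ q) (c : K) (hc : σ c = c) :
    (univ.filter (fun y : K => y + σ y = c)).card = q := by
  have h2 : (2 : K) = 0 := two0
  let T : K →+ K :=
    { toFun := fun y => y + σ y
      map_zero' := by simp
      map_add' := fun x y => by simp only [map_add]; ring }
  have hT : ∀ y, T y = y + σ y := fun _ => rfl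
  have hfib : ∀ b ∈ univ.image T, (univ.filter (fun y => T y = b)).card = (univ.filter (fun x : K => σ x = x)).card := by
    intro b hb
    obtain ⟨y, -, hy⟩ := mem_image.1 hb
    rw [AddMonoidHom.card_fiber_eq_of_mem_range T (x := b) (y := 0) ⟨y, hy⟩ ⟨0, map_zero T⟩]
    congr 1
    ext x
    simp only [mem_filter, mem_univ, true_and, hT]
    constructor
    · intro h
      linear_combination h - x * h2
    · intro h
      linear_combination h + x * h2
  have hsum : q ^ 2 = (univ.image T).card * (univ.filter (fun x : K => σ x = x)).card := by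
    rw [← hq, ← card_univ, card_eq_sum_card_image T univ, sum_congr rfl hfib, sum_const, smul_eq_mul]
  have himg : univ.image T ⊆ univ.filter (fun x : K => σ x = x) := by
    intro b hb
    obtain ⟨y, -, rfl⟩ := mem_image.1 hb
    refine mem_filter.2 ⟨mem_univ _, ?_⟩
    rw [hT, map_add, hσ]
    ring
  have hle := card_le_card himg
  have hFq : (univ.filter (fun x : K => σ x = x)).card = q := by
    nlinarith
  have hq0 : 0 < q := by
    rcases Nat.eq_zero_or_pos q with h | h
    · rw [h] at hq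
      have : 0 < Fintype.card K := Fintype.card_pos
      omega
    · exact h
  have hIq : (univ.image T).card = q := by
    rw [hFq] at hsum
    exact Nat.eq_of_mul_eq_mul_right hq0 (by rw [← hsum]; ring)
  have heq : univ.image T = univ.filter (fun x : K => σ x = x) :=
    eq_of_subset_of_card_le himg (by rw [hFq, hIq])
  have hcm : c ∈ univ.image T := by
    rw [heq]
    exact mem_filter.2 ⟨mem_univ _, hc⟩
  rw [← hFq, ← hfib c hcm]
  rfl

theorem card_pt (σ : K →+* K) (hσ : ∀ x, σ (σ x) = x) {q : ℕ} (hq : Fintype.card K = q ^ 2)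
    (hfix : (univ.filter (fun x : K => σ x = x)).card ≤ q) : Fintype.card (Pt σ) = q ^ 3 + 1 := by
  rw [Fintype.card_option, Fintype.card_subtype, card_filter, Fintype.sum_prod_type]
  have : ∀ x : K, ∑ y : K, (if (x, y).2 + σ (x, y).2 = (x, y).1 * σ (x, y).1 then 1 else 0) = q := by
    intro x
    have := fiber_card σ hσ hq hfix (x * σ x) (by rw [map_mul, hσ, mul_comm])
    rw [card_filter] at this
    exact this
  rw [sum_congr rfl (fun x _ => this x), sum_const, card_univ, hq, smul_eq_mul]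
  ring

/-- the line through two points -/
noncomputable def blk (σ : K →+* K) (P Q : Pt σ) : Finset (Pt σ) := by
  classical exact univ.filter (fun R => ∃ a b : K, vec σ R = a • vec σ P + b • vec σ Q)

theorem mem_blk (σ : K →+* K) {P Q R : Pt σ} : R ∈ blk σ P Q ↔ ∃ a b : K, vec σ R = a • vec σ P + b • vec σ Q := by
  classical
  simp only [blk, mem_filter, mem_univ, true_and]

theorem left_mem (σ : K →+* K) (P Q : Pt σ) : P ∈ blk σ P Q := (mem_blk σ).2 ⟨1, 0, by simp⟩

theorem right_mem (σ : K →+* K) (P Q : Pt σ) : Q ∈ blk σ P Q := (mem_blk σ).2 ⟨0, 1, by simp⟩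

theorem blk_eq (σ : K →+* K) (hσ : ∀ x, σ (σ x) = x) {P Q R S : Pt σ} (hRS : R ≠ S)
    (hR : R ∈ blk σ P Q) (hS : S ∈ blk σ P Q) : blk σ P Q = blk σ R S := by
  obtain ⟨a, b, hab⟩ := (mem_blk σ).1 hR
  obtain ⟨c, d, hcd⟩ := (mem_blk σ).1 hS
  have hD : a * d - b * c ≠ 0 := by
    intro h0
    have e1 : d • vec σ R + (-b) • vec σ S = 0 := by
      rw [hab, hcd]
      have : d • (a • vec σ P + b • vec σ Q) + (-b) • (c • vec σ P + d • vec σ Q) = (a * d - b * c) • vec σ P := by
        module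
      rw [this, h0, zero_smul]
    have e2 : c • vec σ R + (-a) • vec σ S = 0 := by
      rw [hab, hcd]
      have : c • (a • vec σ P + b • vec σ Q) + (-a) • (c • vec σ P + d • vec σ Q) = (-(a * d - b * c)) • vec σ Q := by
        module
      rw [this, h0, neg_zero, zero_smul]
    have h1 := ind2 σ hσ hRS e1
    have h2 := ind2 σ hσ hRS e2
    have ha : a = 0 := by simpa using h2.2
    have hb : b = 0 := by simpa using h1.2
    apply vec_ne σ R
    rw [hab, ha, hb, zero_smul, zero_smul, add_zero]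
  have hP : vec σ P = (d / (a * d - b * c)) • vec σ R + (-b / (a * d - b * c)) • vec σ S := by
    rw [hab, hcd]
    have : (d / (a * d - b * c)) • (a • vec σ P + b • vec σ Q) + (-b / (a * d - b * c)) • (c • vec σ P + d • vec σ Q)
        = ((a * d - b * c) / (a * d - b * c)) • vec σ P := by
      module
    rw [this, div_self hD, one_smul]
  have hQ : vec σ Q = (-c / (a * d - b * c)) • vec σ R + (a / (a * d - b * c)) • vec σ S := by
    rw [hab, hcd]
    have : (-c / (a * d - b * c)) • (a • vec σ P + b • vec σ Q) + (a / (a * d - b * c)) • (c • vec σ P + d • vec σ Q)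
        = ((a * d - b * c) / (a * d - b * c)) • vec σ Q := by
      module
    rw [this, div_self hD, one_smul]
  ext X
  rw [mem_blk, mem_blk]
  constructor
  · rintro ⟨x, y, h⟩
    refine ⟨x * (d / (a * d - b * c)) + y * (-c / (a * d - b * c)), x * (-b / (a * d - b * c)) + y * (a / (a * d - b * c)), ?_⟩
    rw [h, hP, hQ]
    rw [← hP, ← hQ]
    conv_lhs => rw [hP, hQ]
    module
  · rintro ⟨x, y, h⟩
    refine ⟨x * a + y * c, x * b + y * d, ?_⟩
    rw [h, hab, hcd]
    module

theorem exists_third (σ : K →+* K) (hσ : ∀ x, σ (σ x) = x) {P Q : Pt σ} (h : P ≠ Q) (w : K) :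
    ∃ R : Pt σ, w + σ w = 0 → ∃ c : K, c ≠ 0 ∧
      vec σ P + (w / σ (hf σ (vec σ P) (vec σ Q))) • vec σ Q = c • vec σ R := by
  by_cases hw : w + σ w = 0
  · have hh := hf_ne σ hσ h
    have hh' : σ (hf σ (vec σ P) (vec σ Q)) ≠ 0 := by rwa [Ne, map_eq_zero]
    set g := hf σ (vec σ P) (vec σ Q) with hg
    have hg' : hf σ (vec σ Q) (vec σ P) = σ g := (hf_symm σ hσ _ _).symm
    have hiso : hf σ ((1 : K) • vec σ P + (w / σ g) • vec σ Q) ((1 : K) • vec σ P + (w / σ g) • vec σ Q) = 0 := by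
      rw [hf_left, hf_right, hf_right, hf_self, hf_self, ← hg, hg', map_div₀, hσ, map_one]
      have : σ w / g * g = σ w := div_mul_cancel₀ _ hh
      have h3 : w / σ g * σ g = w := div_mul_cancel₀ _ hh'
      linear_combination this + h3 + hw
    have hne : (1 : K) • vec σ P + (w / σ g) • vec σ Q ≠ 0 := fun h0 => one_ne_zero (ind2 σ hσ h h0).1
    obtain ⟨R, c, hc, hR⟩ := exists_pt σ hiso hne
    exact ⟨R, fun _ => ⟨c, hc, by rw [← hR, one_smul]⟩⟩
  · exact ⟨P, fun h0 => absurd h0 hw⟩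

theorem card_blk (σ : K →+* K) (hσ : ∀ x, σ (σ x) = x) {q : ℕ} (hq : Fintype.card K = q ^ 2)
    (hfix : (univ.filter (fun x : K => σ x = x)).card ≤ q) {P Q : Pt σ} (h : P ≠ Q) :
    (blk σ P Q).card = q + 1 := by
  classical
  choose f hf' using exists_third σ hσ h
  have hh := hf_ne σ hσ h
  have hh' : σ (hf σ (vec σ P) (vec σ Q)) ≠ 0 := by rwa [Ne, map_eq_zero]
  have hfib := fiber_card σ hσ hq hfix 0 (map_zero σ)
  have hQn : Q ∉ (univ.filter (fun y : K => y + σ y = 0)).image f := by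
    intro hQ
    obtain ⟨w, hw, hwQ⟩ := mem_image.1 hQ
    obtain ⟨c, hc, he⟩ := hf' w (mem_filter.1 hw).2
    rw [hwQ] at he
    have : (1 : K) • vec σ P + (w / σ (hf σ (vec σ P) (vec σ Q)) - c) • vec σ Q = 0 := by
      rw [sub_smul, ← he]
      module
    exact one_ne_zero (ind2 σ hσ h this).1
  have hinj : Set.InjOn f (univ.filter (fun y : K => y + σ y = 0)) := by
    intro w hw w' hw' hww
    rw [mem_coe, mem_filter] at hw hw'
    obtain ⟨c, hc, he⟩ := hf' w hw.2
    obtain ⟨c', hc', he'⟩ := hf' w' hw'.2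
    rw [← hww] at he'
    have e1 : (c' - c) • vec σ P + (c' * (w / σ (hf σ (vec σ P) (vec σ Q))) - c * (w' / σ (hf σ (vec σ P) (vec σ Q)))) • vec σ Q = 0 := by
      have : (c' - c) • vec σ P + (c' * (w / σ (hf σ (vec σ P) (vec σ Q))) - c * (w' / σ (hf σ (vec σ P) (vec σ Q)))) • vec σ Q
          = c' • (vec σ P + (w / σ (hf σ (vec σ P) (vec σ Q))) • vec σ Q) - c • (vec σ P + (w' / σ (hf σ (vec σ P) (vec σ Q))) • vec σ Q) := by
        module
      rw [this, he, he']
      module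
    obtain ⟨h1, h2⟩ := ind2 σ hσ h e1
    have hcc : c' = c := sub_eq_zero.1 h1
    rw [hcc, ← mul_sub] at h2
    have h3 := (mul_eq_zero.1 h2).resolve_left hc
    have h4 : w / σ (hf σ (vec σ P) (vec σ Q)) = w' / σ (hf σ (vec σ P) (vec σ Q)) := sub_eq_zero.1 h3
    exact (div_left_inj' hh').1 h4
  have heq : blk σ P Q = insert Q ((univ.filter (fun y : K => y + σ y = 0)).image f) := by
    ext R
    rw [mem_insert, mem_image, mem_blk]
    constructor
    · rintro ⟨a, b, hab⟩
      by_cases hRQ : R = Q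
      · exact Or.inl hRQ
      · right
        have ha : a ≠ 0 := by
          rintro rfl
          rw [zero_smul, zero_add] at hab
          exact hRQ (vec_smul σ hσ hab)
        have has : σ a ≠ 0 := by rwa [Ne, map_eq_zero]
        have hiso := hf_self σ R
        rw [hab, hf_left, hf_right, hf_right, hf_self, hf_self, ← hf_symm σ hσ (vec σ P) (vec σ Q)] at hiso
        have hw : b / a * σ (hf σ (vec σ P) (vec σ Q)) + σ (b / a * σ (hf σ (vec σ P) (vec σ Q))) = 0 := by
          rw [map_mul, hσ, map_div₀]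
          field_simp
          linear_combination hiso
        refine ⟨b / a * σ (hf σ (vec σ P) (vec σ Q)), mem_filter.2 ⟨mem_univ _, hw⟩, ?_⟩
        obtain ⟨c, hc, he⟩ := hf' _ hw
        rw [mul_div_assoc, div_self hh', mul_one] at he
        have : vec σ R = (a * c) • vec σ (f (b / a * σ (hf σ (vec σ P) (vec σ Q)))) := by
          rw [mul_smul, ← he, hab, smul_add, smul_smul, mul_div_cancel₀ _ ha]
        exact (vec_smul σ hσ this).symm
    · rintro (rfl | ⟨w, hw, rfl⟩)
      · exact ⟨0, 1, by simp⟩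
      · obtain ⟨c, hc, he⟩ := hf' w (mem_filter.1 hw).2
        refine ⟨c⁻¹, c⁻¹ * (w / σ (hf σ (vec σ P) (vec σ Q))), ?_⟩
        rw [mul_smul, ← smul_add, he, smul_smul, inv_mul_cancel₀ hc, one_smul]
  rw [heq, card_insert_of_notMem hQn, card_image_of_injOn hinj, hfib]

/-! ### No O'Nan configuration -/

theorem no_onan (σ : K →+* K) (hσ : ∀ x, σ (σ x) = x) {A B C F1 F2 F3 : Pt σ}
    (hAB : A ≠ B) (hAC : A ≠ C) (hBC : B ≠ C) (hC : C ∉ blk σ A B)
    (hF1 : F1 ∈ blk σ A B) (hF1A : F1 ≠ A) (hF1B : F1 ≠ B)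
    (hF2 : F2 ∈ blk σ A C) (hF2A : F2 ≠ A) (hF2C : F2 ≠ C)
    (hF3 : F3 ∈ blk σ B C) (hF3B : F3 ≠ B) (hF3C : F3 ≠ C)
    (h123 : F3 ∈ blk σ F1 F2) : False := by
  have h2 : (2 : K) = 0 := two0
  obtain ⟨α, β, e1⟩ := (mem_blk σ).1 hF1
  obtain ⟨γ, δ, e2⟩ := (mem_blk σ).1 hF2
  obtain ⟨ε, ζ, e3⟩ := (mem_blk σ).1 hF3
  obtain ⟨s, t, e4⟩ := (mem_blk σ).1 h123
  -- independence
  have ind3 : ∀ x y z : K, x • vec σ A + y • vec σ B + z • vec σ C = 0 → x = 0 ∧ y = 0 ∧ z = 0 := by
    intro x y z h0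
    have hz : z = 0 := by
      by_contra hz
      apply hC
      refine (mem_blk σ).2 ⟨-(x / z), -(y / z), ?_⟩
      have : z⁻¹ • (x • vec σ A + y • vec σ B + z • vec σ C) = 0 := by rw [h0, smul_zero]
      have h3 : z⁻¹ • (x • vec σ A + y • vec σ B + z • vec σ C) = vec σ C - ((-(x / z)) • vec σ A + (-(y / z)) • vec σ B) := by
        have hzz : vec σ C = (z⁻¹ * z) • vec σ C := by rw [inv_mul_cancel₀ hz, one_smul]
        conv_rhs => rw [hzz]
        module
      rw [h3] at this
      exact sub_eq_zero.1 this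
    rw [hz, zero_smul, add_zero] at h0
    exact ⟨(ind2 σ hσ hAB h0).1, (ind2 σ hσ hAB h0).2, hz⟩
  have hα : α ≠ 0 := by
    rintro rfl
    rw [zero_smul, zero_add] at e1
    exact hF1B (vec_smul σ hσ e1)
  have hβ : β ≠ 0 := by
    rintro rfl
    rw [zero_smul, add_zero] at e1
    exact hF1A (vec_smul σ hσ e1)
  have hγ : γ ≠ 0 := by
    rintro rfl
    rw [zero_smul, zero_add] at e2
    exact hF2C (vec_smul σ hσ e2)
  have hδ : δ ≠ 0 := by
    rintro rfl
    rw [zero_smul, add_zero] at e2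
    exact hF2A (vec_smul σ hσ e2)
  have hε : ε ≠ 0 := by
    rintro rfl
    rw [zero_smul, zero_add] at e3
    exact hF3C (vec_smul σ hσ e3)
  have hζ : ζ ≠ 0 := by
    rintro rfl
    rw [zero_smul, add_zero] at e3
    exact hF3B (vec_smul σ hσ e3)
  have h4 : (s * α + t * γ) • vec σ A + (s * β - ε) • vec σ B + (t * δ - ζ) • vec σ C = 0 := by
    have : (s * α + t * γ) • vec σ A + (s * β - ε) • vec σ B + (t * δ - ζ) • vec σ C
        = s • (α • vec σ A + β • vec σ B) + t • (γ • vec σ A + δ • vec σ C) - (ε • vec σ B + ζ • vec σ C) := by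
      module
    rw [this, ← e1, ← e2, ← e3, e4, sub_self]
  obtain ⟨r1, r2, r3⟩ := ind3 _ _ _ h4
  have hsα : s * α = t * γ := by linear_combination r1 - (t * γ) * h2
  have hε' : ε = s * β := (sub_eq_zero.1 r2).symm
  have hζ' : ζ = t * δ := (sub_eq_zero.1 r3).symm
  have ht : t ≠ 0 := by
    rintro rfl
    rw [zero_mul] at hζ'
    exact hζ hζ'
  -- the products
  set g12 := hf σ (vec σ A) (vec σ B) with hg12
  set g13 := hf σ (vec σ A) (vec σ C) with hg13
  set g23 := hf σ (vec σ B) (vec σ C) with hg23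
  have hg21 : hf σ (vec σ B) (vec σ A) = σ g12 := (hf_symm σ hσ _ _).symm
  have hg31 : hf σ (vec σ C) (vec σ A) = σ g13 := (hf_symm σ hσ _ _).symm
  have hg32 : hf σ (vec σ C) (vec σ B) = σ g23 := (hf_symm σ hσ _ _).symm
  have n12 : g12 ≠ 0 := hf_ne σ hσ hAB
  have n13 : g13 ≠ 0 := hf_ne σ hσ hAC
  have n23 : g23 ≠ 0 := hf_ne σ hσ hBC
  have hX : α * σ β * g12 + β * σ α * σ g12 = 0 := by
    have hiso := hf_self σ F1
    rw [e1, hf_left, hf_right, hf_right, hf_self, hf_self, ← hg12, hg21] at hiso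
    linear_combination hiso
  have hY : γ * σ δ * g13 + δ * σ γ * σ g13 = 0 := by
    have hiso := hf_self σ F2
    rw [e2, hf_left, hf_right, hf_right, hf_self, hf_self, ← hg13, hg31] at hiso
    linear_combination hiso
  have hZ : ε * σ ζ * g23 + ζ * σ ε * σ g23 = 0 := by
    have hiso := hf_self σ F3
    rw [e3, hf_left, hf_right, hf_right, hf_self, hf_self, ← hg23, hg32] at hiso
    linear_combination hiso
  -- W is fixed
  have hW : g12 * g23 * σ g13 + σ g12 * σ g23 * g13 = 0 := by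
    have hX' : α * σ β * g12 = β * σ α * σ g12 := by linear_combination hX - (β * σ α * σ g12) * h2
    have hY' : γ * σ δ * g13 = δ * σ γ * σ g13 := by linear_combination hY - (δ * σ γ * σ g13) * h2
    have hZ' : ε * σ ζ * g23 = ζ * σ ε * σ g23 := by linear_combination hZ - (ζ * σ ε * σ g23) * h2
    have hsα' : σ s * σ α = σ t * σ γ := by rw [← map_mul, hsα, map_mul]
    rw [hε', hζ', map_mul, map_mul] at hZ'
    -- X * σY * Z
    have hprod : (α * σ β * g12) * (δ * σ γ * σ g13) * (s * β * (σ t * σ δ) * g23)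
        = (β * σ α * σ g12) * (γ * σ δ * g13) * (t * δ * (σ s * σ β) * σ g23) := by
      rw [hX', ← hY', hZ']
    have hcoef : (t * γ) * (σ t * σ γ) * (β * σ β) * (δ * σ δ) ≠ 0 := by
      have i1 : ∀ x : K, x ≠ 0 → σ x ≠ 0 := fun x hx => by rwa [Ne, map_eq_zero]
      exact mul_ne_zero (mul_ne_zero (mul_ne_zero (mul_ne_zero ht hγ) (mul_ne_zero (i1 _ ht) (i1 _ hγ)))
        (mul_ne_zero hβ (i1 _ hβ))) (mul_ne_zero hδ (i1 _ hδ))
    have h5 : (t * γ) * (σ t * σ γ) * (β * σ β) * (δ * σ δ) * (g12 * g23 * σ g13 + σ g12 * σ g23 * g13) = 0 := by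
      have l1 : (α * σ β * g12) * (δ * σ γ * σ g13) * (s * β * (σ t * σ δ) * g23)
          = (t * γ) * (σ t * σ γ) * (β * σ β) * (δ * σ δ) * (g12 * g23 * σ g13) := by
        linear_combination (σ β * g12 * δ * σ γ * σ g13 * β * σ t * σ δ * g23) * hsα
      have l2 : (β * σ α * σ g12) * (γ * σ δ * g13) * (t * δ * (σ s * σ β) * σ g23)
          = (t * γ) * (σ t * σ γ) * (β * σ β) * (δ * σ δ) * (σ g12 * σ g23 * g13) := by
        linear_combination (β * σ g12 * γ * σ δ * g13 * t * δ * σ β * σ g23) * hsα'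
      rw [mul_add, ← l1, ← l2, hprod]
      linear_combination ((β * σ α * σ g12) * (γ * σ δ * g13) * (t * δ * (σ s * σ β) * σ g23)) * h2
    exact (mul_eq_zero.1 h5).resolve_left hcoef
  -- the orthogonal vector
  set w : K × K × K := (σ g12 * σ g23) • vec σ A + (σ g13 * g12) • vec σ B + (σ g12 * g12) • vec σ C with hw
  have hw6 : w = (1 : K) • ((σ g12 * σ g23) • vec σ A + (σ g13 * g12) • vec σ B) + (σ g12 * g12) • vec σ C := by
    rw [one_smul]
  have hwl : ∀ v, hf σ w v = (σ g12 * σ g23) * hf σ (vec σ A) v + (σ g13 * g12) * hf σ (vec σ B) v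
      + (σ g12 * g12) * hf σ (vec σ C) v := by
    intro v
    rw [hw6, hf_left, hf_left, one_mul]
  have hwA : hf σ w (vec σ A) = 0 := by
    rw [hwl, hf_self, hg21, hg31]
    linear_combination (σ g13 * g12 * σ g12) * h2
  have hwB : hf σ w (vec σ B) = 0 := by
    rw [hwl, hf_self, ← hg12, hg32]
    linear_combination (σ g12 * σ g23 * g12) * h2
  have hwC : hf σ w (vec σ C) = 0 := by
    rw [hwl, hf_self, ← hg13, ← hg23]
    linear_combination hW
  have hww : hf σ w w = 0 := by
    have h7 : hf σ w w = hf σ w ((1 : K) • ((σ g12 * σ g23) • vec σ A + (σ g13 * g12) • vec σ B) + (σ g12 * g12) • vec σ C) := by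
      rw [← hw6]
    rw [h7, hf_right, hf_right, hwA, hwB, hwC]
    ring
  have hw0 : w ≠ 0 := by
    intro h0
    have h8 := (ind3 _ _ _ h0).2.2
    have i1 : σ g12 ≠ 0 := by rwa [Ne, map_eq_zero]
    exact mul_ne_zero i1 n12 h8
  obtain ⟨P, c, hc, hP⟩ := exists_pt σ hww hw0
  have hPA : P = A := by
    by_contra hne
    rw [hP, hf_smul] at hwA
    exact hf_ne σ hσ hne ((mul_eq_zero.1 hwA).resolve_left hc)
  have hPB : P = B := by
    by_contra hne
    rw [hP, hf_smul] at hwB
    exact hf_ne σ hσ hne ((mul_eq_zero.1 hwB).resolve_left hc)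
  exact hAB (hPA.symm.trans hPB)

/-- the unital is a linear space without O'Nan configurations -/
theorem unital_LS (σ : K →+* K) (hσ : ∀ x, σ (σ x) = x) {q : ℕ} (hq : Fintype.card K = q ^ 2)
    (hfix : (univ.filter (fun x : K => σ x = x)).card ≤ q) :
    ∃ B : Finset (Finset (Pt σ)), LS (q + 1) B := by
  classical
  refine ⟨univ.filter (fun b => ∃ x y, x ≠ y ∧ b = blk σ x y), ?_, ?_, ?_, ?_⟩
  · intro b hb
    obtain ⟨x, y, hxy, rfl⟩ := (mem_filter.1 hb).2
    exact card_blk σ hσ hq hfix hxy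
  · intro x y hxy
    exact ⟨blk σ x y, mem_filter.2 ⟨mem_univ _, x, y, hxy, rfl⟩, left_mem σ x y, right_mem σ x y⟩
  · intro x y hxy b hb b' hb' h1 h2 h3 h4
    obtain ⟨P, Q, -, rfl⟩ := (mem_filter.1 hb).2
    obtain ⟨P', Q', -, rfl⟩ := (mem_filter.1 hb').2
    rw [blk_eq σ hσ hxy h1 h2, blk_eq σ hσ hxy h3 h4]
  · rintro ⟨b, p, hb, hne, hp, hd⟩
    have hbb : ∀ i x y, x ≠ y → x ∈ b i → y ∈ b i → b i = blk σ x y := by
      intro i x y hxy hx hy
      obtain ⟨P, Q, -, h⟩ := (mem_filter.1 (hb i)).2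
      rw [h] at hx hy ⊢
      exact blk_eq σ hσ hxy hx hy
    have hsym : ∀ i j, i ≠ j → p i j = p j i := by
      intro i j hij
      by_contra hcon
      have h1 := hp i j hij
      have h2 := hp j i hij.symm
      exact hne i j hij ((hbb i _ _ hcon h1.1 h2.2).trans (hbb j _ _ hcon h1.2 h2.1).symm)
    have d01 : (0 : Fin 4) ≠ 1 := by decide
    have d02 : (0 : Fin 4) ≠ 2 := by decide
    have d03 : (0 : Fin 4) ≠ 3 := by decide
    have d12 : (1 : Fin 4) ≠ 2 := by decide
    have d13 : (1 : Fin 4) ≠ 3 := by decide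
    have d23 : (2 : Fin 4) ≠ 3 := by decide
    have hAB : p 0 1 ≠ p 0 2 := hd 0 1 2 d01 d02 d12
    have hAC : p 0 1 ≠ p 1 2 := by
      rw [hsym 0 1 d01]
      exact hd 1 0 2 d01.symm d12 d02
    have hBC : p 0 2 ≠ p 1 2 := by
      rw [hsym 0 2 d02, hsym 1 2 d12]
      exact hd 2 0 1 d02.symm d12.symm d01
    have hb0 := hbb 0 _ _ hAB (hp 0 1 d01).1 (hp 0 2 d02).1
    have hb1 := hbb 1 _ _ hAC (hp 0 1 d01).2 (hp 1 2 d12).1
    have hb2 := hbb 2 _ _ hBC (hp 0 2 d02).2 (hp 1 2 d12).2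
    have hF12 : p 0 3 ≠ p 1 3 := by
      rw [hsym 0 3 d03, hsym 1 3 d13]
      exact hd 3 0 1 d03.symm d13.symm d01
    have hb3 := hbb 3 _ _ hF12 (hp 0 3 d03).2 (hp 1 3 d13).2
    refine no_onan σ hσ (A := p 0 1) (B := p 0 2) (C := p 1 2) (F1 := p 0 3) (F2 := p 1 3) (F3 := p 2 3)
      hAB hAC hBC ?_ ?_ ?_ ?_ ?_ ?_ ?_ ?_ ?_ ?_ ?_
    · intro hC
      rw [← hb0] at hC
      exact hne 0 1 d01 ((hbb 0 _ _ hAC (hp 0 1 d01).1 hC).trans hb1.symm)
    · rw [← hb0]
      exact (hp 0 3 d03).1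
    · exact (hd 0 1 3 d01 d03 d13).symm
    · exact (hd 0 2 3 d02 d03 d23).symm
    · rw [← hb1]
      exact (hp 1 3 d13).1
    · rw [hsym 0 1 d01]
      exact (hd 1 0 3 d01.symm d13 d03).symm
    · exact (hd 1 2 3 d12 d13 d23).symm
    · rw [← hb2]
      exact (hp 2 3 d23).1
    · rw [hsym 0 2 d02]
      exact (hd 2 0 3 d02.symm d23 d03).symm
    · rw [hsym 1 2 d12]
      exact (hd 2 1 3 d12.symm d23 d13).symm
    · rw [← hb3]
      exact (hp 2 3 d23).2

end Pool.Agent.H226R.NU
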